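import Pool.Agent.R919.GT.Def

/-!
# Invariants of the kernels of the characters of `ℓ`-adic monodromy groups: definitions
-/

set_option autoImplicit false

namespace Pool.Agent.R919.ST

open Matrix

section eig

variable {K Γ J : Type} [Field K] [Group Γ] {B : J → Type} [∀ j, Fintype (B j)]
  [∀ j, DecidableEq (B j)] (ρ : ∀ j, Γ →* Matrix (B j) (B j) K) (χ : Γ →* Kˣ)
  {κ : Type} [Fintype κ] [DecidableEq κ] (f : κ → J)

/-- The tensors in the tensor product over `x : κ` of the representations `ρ (f x)` on which
ALL elements of the group `Γ` act by the power `χ ^ m` of the character `χ`. -/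
def eig (m : ℤ) : Submodule K ((∀ x, B (f x)) → K) where
  carrier := {c | ∀ γ, ∀ I,
    ∑ I' : ∀ x, B (f x), (∏ x, ρ (f x) γ (I x) (I' x)) * c I' = ((χ γ ^ m : Kˣ) : K) * c I}
  zero_mem' := fun γ I => by simp
  add_mem' := by
    intro c d hc hd γ I
    simp only [Pi.add_apply, mul_add, Finset.sum_add_distrib]
    rw [hc γ I, hd γ I]
  smul_mem' := by
    intro r c hc γ I
    have h : ∀ I', (∏ x, ρ (f x) γ (I x) (I' x)) * (r • c) I' =
        r * ((∏ x, ρ (f x) γ (I x) (I' x)) * c I') := by
      intro I'
      rw [Pi.smul_apply, smul_eq_mul]
      ring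
    simp only [h]
    rw [← Finset.mul_sum, hc γ I, Pi.smul_apply, smul_eq_mul]
    ring

/-- The tensors in the tensor product of the factors `ρ j` only (over the set of all `x` with
`f x = j`), as functions which do not depend on the coordinates of the other factors, on which
ALL elements of `Γ` act by `χ ^ m`. -/
def eigOf [DecidableEq J] (j : J) (m : ℤ) : Submodule K ((∀ x, B (f x)) → K) where
  carrier := {c | (∀ I I', (∀ x, f x = j → I x = I' x) → c I = c I') ∧
    ∀ γ, ∀ I, ∑ I' : ∀ x, B (f x), (∏ x, (if f x = j then ρ (f x) γ else 1) (I x) (I' x)) * c I' =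
        ((χ γ ^ m : Kˣ) : K) * c I}
  zero_mem' := ⟨fun _ _ _ => rfl, fun γ I => by simp⟩
  add_mem' := by
    rintro c d ⟨hc0, hc⟩ ⟨hd0, hd⟩
    refine ⟨fun I I' h => ?_, fun γ I => ?_⟩
    · rw [Pi.add_apply, Pi.add_apply, hc0 I I' h, hd0 I I' h]
    · simp only [Pi.add_apply, mul_add, Finset.sum_add_distrib]
      rw [hc γ I, hd γ I]
  smul_mem' := by
    rintro r c ⟨hc0, hc⟩
    refine ⟨fun I I' h => ?_, fun γ I => ?_⟩
    · rw [Pi.smul_apply, Pi.smul_apply, hc0 I I' h]
    · have h : ∀ I', (∏ x, (if f x = j then ρ (f x) γ else 1) (I x) (I' x)) * (r • c) I' =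
          r * ((∏ x, (if f x = j then ρ (f x) γ else 1) (I x) (I' x)) * c I') := by
        intro I'
        rw [Pi.smul_apply, smul_eq_mul]
        ring
      simp only [h]
      rw [← Finset.mul_sum, hc γ I, Pi.smul_apply, smul_eq_mul]
      ring

/-- The invariants of the kernel `G₁` of the character `χ` on the `ℓ`-adic monodromy group (the
Zariski closure of the image of `Γ`), in the tensor product of the `ρ (f x)`: the sum of the spaces
on which `Γ` acts by `χ ^ m`. (`G₁` is normal and the quotient is the multiplicative group, so its
invariants are the sum of the spaces on which the group acts by a power of `χ`.) -/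
def kernelInvariants : Submodule K ((∀ x, B (f x)) → K) := ⨆ m, eig ρ χ f m

/-- The invariants of the kernel of the character in the factors with index `j`. -/
def kernelInvariantsOf [DecidableEq J] (j : J) : Submodule K ((∀ x, B (f x)) → K) :=
  ⨆ m, eigOf ρ χ f j m

end eig

/-- Spaces `cls f W` for all finite families `f` of indices and finite sets `W` of indices, closed under
products. In the intended use `cls f W` is the space of the linear combinations of the classes of
motivated (or absolute Hodge) cycles over the field `k`, of all twists, in the tensor product of the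
factors with indices in `W`, that is, the space of the invariants of the kernel of the character on
the motivic Galois group, as functions which do not depend on the coordinates of the other
factors. -/
structure MotivatedSystem {J : Type} [DecidableEq J] (K : Type) [Field K] (B : J → Type)
    [∀ j, Fintype (B j)] [∀ j, DecidableEq (B j)] where
  /-- the spaces -/
  cls : ∀ {κ : Type} [Fintype κ] [DecidableEq κ] (f : κ → J), Finset J →
    Submodule K ((∀ x, B (f x)) → K)
  /-- the unit (for the empty product) -/
  one : ∀ {κ : Type} [Fintype κ] [DecidableEq κ] (f : κ → J), 1 ∈ cls f ∅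
  /-- they are closed under products -/
  mul : ∀ {κ : Type} [Fintype κ] [DecidableEq κ] (f : κ → J) (W W' : Finset J), Disjoint W W' →
    ∀ c ∈ cls f W, ∀ d ∈ cls f W', c * d ∈ cls f (W ∪ W')

variable {K Γ J : Type} [Field K] [Group Γ] [DecidableEq J] {B : J → Type} [∀ j, Fintype (B j)]
  [∀ j, DecidableEq (B j)] (ρ : ∀ j, Γ →* Matrix (B j) (B j) K) (χ : Γ →* Kˣ)

/-- The statement of the motivic Sato-Tate conjecture for all tensor constructions on the motive with
index `j`: all invariants of the kernel of the character on the `ℓ`-adic monodromy group are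
invariants of the kernel of the character on the motivic Galois group. -/
def SatoTateAt (Z : MotivatedSystem K B) (j : J) : Prop :=
  ∀ (κ : Type) [Fintype κ] [DecidableEq κ] (f : κ → J), kernelInvariantsOf ρ χ f j ≤ Z.cls f {j}

/-- The statement of the motivic Sato-Tate conjecture for the tensor product of the motives with
indices `f x`. -/
def SatoTate (Z : MotivatedSystem K B) {κ : Type} [Fintype κ] [DecidableEq κ] (f : κ → J) :
    Prop :=
  kernelInvariants ρ χ f ≤ Z.cls f (Finset.univ.image f)

end Pool.Agent.R919.ST
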