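import Pool.Agent.R919.ST.Defs
import Pool.Agent.R919.VH.Main

/-!
# Invariants of the kernels of the characters for an arbitrary motive and all but few elliptic curves
-/

set_option linter.unusedSectionVars false
set_option autoImplicit false

namespace Pool.Agent.R919.ST

open Matrix Pool.Agent.R919.GT Pool.Agent.R919 Module

variable {K Γ J : Type} [Field K] [Group Γ] [DecidableEq J] {B : J → Type} [∀ j, Fintype (B j)]
  [∀ j, DecidableEq (B j)] (ρ : ∀ j, Γ →* Matrix (B j) (B j) K) (χ : Γ →* Kˣ)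
  {κ : Type} [Fintype κ] [DecidableEq κ] (f : κ → J)

theorem mem_eig {m : ℤ} {c : (∀ x, B (f x)) → K} : c ∈ eig ρ χ f m ↔
    ∀ γ, tact (fun x => ρ (f x) γ) c = ((χ γ ^ m : Kˣ) : K) • c :=
  ⟨fun h γ => funext fun I => h γ I, fun h γ I => congrFun (h γ) I⟩

theorem mem_eigOf {j : J} {m : ℤ} {c : (∀ x, B (f x)) → K} : c ∈ eigOf ρ χ f j m ↔
    (∀ I I', (∀ x, f x = j → I x = I' x) → c I = c I') ∧
      ∀ γ, gact ρ f j γ c = ((χ γ ^ m : Kˣ) : K) • c :=
  ⟨fun h => ⟨h.1, fun γ => funext fun I => h.2 γ I⟩, fun h => ⟨h.1, fun γ I => congrFun (h.2 γ) I⟩⟩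

/-- A function which satisfies the conditions for all indices is a sum of products. -/
theorem mem_prod' (e : J → ℤ) (W : Finset J) : ∀ c : (∀ x, B (f x)) → K,
    (∀ I I', (∀ x, f x ∈ W → I x = I' x) → c I = c I') →
    (∀ j ∈ W, ∀ γ, gact ρ f j γ c = ((χ γ ^ e j : Kˣ) : K) • c) →
    c ∈ ∏ j ∈ W, eigOf ρ χ f j (e j) := by
  induction W using Finset.induction_on with
  | empty =>
    intro c hc _
    rw [Finset.prod_empty]
    by_cases hne : Nonempty (∀ x, B (f x))
    · obtain ⟨I₀⟩ := hne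
      rw [Submodule.mem_one]
      refine ⟨c I₀, funext fun I => ?_⟩
      exact hc I₀ I fun x hx => absurd hx (Finset.notMem_empty _)
    · rw [not_nonempty_iff] at hne
      have h : c = 0 := Subsingleton.elim _ _
      rw [h]
      exact Submodule.zero_mem _
  | insert j W hj ih =>
    intro c hc hcond
    rw [Finset.prod_insert hj, mul_comm]
    have h1 : c = fun I => c (mixP (fun x => f x = j) I I) := by
      funext I
      congr 1
      funext x
      simp [mixP]
    rw [h1]
    refine diag_mem _ _ (fun I' I => c (mixP (fun x => f x = j) I' I)) (fun I => ?_) (fun I' => ?_)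
    · rw [mem_eigOf]
      refine ⟨fun I' I'' h => ?_, fun γ => ?_⟩
      · refine congrArg c (funext fun x => ?_)
        by_cases hx : f x = j
        · simp [mixP, hx, h x hx]
        · simp [mixP, hx]
      · rw [gact, loc (fun x => f x = j) _ (fun x hx => if_neg hx)]
        funext I'
        have h2 := congrFun (hcond j (Finset.mem_insert_self j W) γ)
          (mixP (fun x => f x = j) I' I)
        exact h2
    · refine ih _ (fun I I'' h => ?_) (fun t ht γ => ?_)
      · refine hc _ _ fun x hx => ?_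
        by_cases hx' : f x = j
        · simp [mixP, hx']
        · have hx2 : f x ∈ W := (Finset.mem_insert.1 hx).resolve_left hx'
          simp [mixP, hx', h x hx2]
      · have hjt : ∀ x, f x = j → f x ≠ t := by
          rintro x hx hx'
          exact hj (by rw [← hx, hx']; exact ht)
        rw [gact, loc' (fun x => f x = j) _ (fun x hx => if_neg (hjt x hx))]
        funext I
        have h2 := congrFun (hcond t (Finset.mem_insert_of_mem ht) γ)
          (mixP (fun x => f x = j) I' I)
        exact h2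

theorem cls_prod (Z : MotivatedSystem K B) (W : Finset J)
    (h : ∀ j ∈ W, kernelInvariantsOf ρ χ f j ≤ Z.cls f {j}) :
    ∏ j ∈ W, kernelInvariantsOf ρ χ f j ≤ Z.cls f W := by
  induction W using Finset.induction_on with
  | empty =>
    rw [Finset.prod_empty, Submodule.one_le]
    exact Z.one f
  | insert j W hj ih =>
    rw [Finset.prod_insert hj, Submodule.mul_le]
    intro c hc d hd
    have h1 := Z.mul f {j} W (Finset.disjoint_singleton_left.2 hj) c
      (h j (Finset.mem_insert_self j W) hc) d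
      (ih (fun i hi => h i (Finset.mem_insert_of_mem hi)) hd)
    exact h1

variable [CharZero K]

/-- **The main theorem.** -/
theorem main (o : J) (Q : Matrix (B o) (B o) K) (hQu : IsUnit Q)
    (hQ : ∀ γ, ∃ r : K, (ρ o γ)ᵀ * Q * ρ o γ = r • Q)
    (h1 : ∀ j, j ≠ o → IsEll χ (ρ j))
    (h2 : ∀ i j, i ≠ o → j ≠ o → i ≠ j → NonIso (ρ i) (ρ j)) :
    ∃ S : Finset J, o ∉ S ∧ 2 * S.card ≤ Fintype.card (B o) ∧ (∀ i ∈ S, Linked (ρ o) (ρ i)) ∧
      (∀ (κ : Type) [Fintype κ] [DecidableEq κ] (f : κ → J), (∀ x, f x ∉ S) →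
        kernelInvariants ρ χ f ≤ ∏ j ∈ Finset.univ.image f, kernelInvariantsOf ρ χ f j) ∧
      ∀ Z : MotivatedSystem K B, (∀ j ∉ S, SatoTateAt ρ χ Z j) →
        ∀ (κ : Type) [Fintype κ] [DecidableEq κ] (f : κ → J), (∀ x, f x ∉ S) →
          SatoTate ρ χ Z f := by
  obtain ⟨S, hS1, hS2, hS3, hS4⟩ := VH.cond_main (χ := χ) o Q hQu hQ h1 h2
  have hdec : ∀ (κ : Type) [Fintype κ] [DecidableEq κ] (f : κ → J), (∀ x, f x ∉ S) →
      kernelInvariants ρ χ f ≤ ∏ j ∈ Finset.univ.image f, kernelInvariantsOf ρ χ f j := by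
    intro κ _ _ f hf
    refine iSup_le fun m c hc => ?_
    have hc' := (mem_eig ρ χ f).1 hc
    have ht : c ∈ tateClasses ρ χ f m :=
      (mem_tateClasses ρ χ f).2 ⟨⊤, inferInstance, fun γ _ => hc' γ⟩
    set W := Finset.univ.image f with hW
    set r : J → ℤ := fun j => ((cnt f j / 2 : ℕ) : ℤ) with hr
    have hcond : ∀ i ∈ W, i ≠ o → ∀ γ, gact ρ f i γ c = ((χ γ ^ r i : Kˣ) : K) • c :=
      fun i hi hio γ => hS4 κ f hf m c ht i hi hio γ
    have hdep : ∀ I I' : ∀ x, B (f x), (∀ x, f x ∈ W → I x = I' x) → c I = c I' := fun I I' h =>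
      congrArg c (funext fun x => h x (Finset.mem_image_of_mem f (Finset.mem_univ x)))
    have key : ∀ e : J → ℤ, (∀ j ∈ W, ∀ γ, gact ρ f j γ c = ((χ γ ^ e j : Kˣ) : K) • c) →
        c ∈ ∏ j ∈ W, kernelInvariantsOf ρ χ f j := by
      intro e he
      have h3 := mem_prod' ρ χ f e W c hdep he
      have h4 : ∏ j ∈ W, eigOf ρ χ f j (e j) ≤ ∏ j ∈ W, kernelInvariantsOf ρ χ f j :=
        Finset.prod_le_prod' fun j _ => le_iSup (fun m => eigOf ρ χ f j m) (e j)
      exact h4 h3
    by_cases ho : o ∈ W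
    · refine key (fun j => if j = o then m - ∑ i ∈ W.erase o, r i else r j) fun j hj γ => ?_
      by_cases hjo : j = o
      · rw [if_pos hjo, hjo]
        have h3 := hc' γ
        rw [← wact_image, ← hW, ← Finset.insert_erase ho, wact_insert f (Finset.notMem_erase _ _),
          Module.End.mul_apply, wact_smul f r (fun i hi => hcond i (Finset.mem_of_mem_erase hi)
            (Finset.ne_of_mem_erase hi) γ), map_smul] at h3
        rw [_root_.zpow_sub, Units.val_mul, mul_smul, smul_comm, ← h3, smul_smul, ← Units.val_mul,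
          inv_mul_cancel, Units.val_one, one_smul]
      · rw [if_neg hjo]
        exact hcond j hj hjo γ
    · exact key r fun j hj γ => hcond j hj (fun h => ho (h ▸ hj)) γ
  refine ⟨S, hS1, hS2, hS3, hdec, fun Z hZ κ _ _ f hf => ?_⟩
  refine (hdec κ f hf).trans (cls_prod ρ χ f Z _ fun j hj => ?_)
  obtain ⟨x, _, rfl⟩ := Finset.mem_image.1 hj
  exact hZ (f x) (hf x) κ f

end Pool.Agent.R919.ST
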